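import Mathlib
import Pool.Agent.Helper92.PO.Stmts

namespace Pool.Agent.Helper92.PO

theorem lit_cls {n : ℕ} (P : Finset Cell) {σ τ : ℕ} (hσ : σ < wd n) (hτ : τ < σ) :
    (P.filter fun a : Cell => (a.1 + τ + 1) % (wd n : ℤ) = (wd n : ℤ) - 1).card =
      cls n P σ (σ - 1 - τ) := by
  unfold cls
  congr 1
  refine Finset.filter_congr fun a _ => ?_
  have hσ' : (σ : ℤ) < wd n := by exact_mod_cast hσ
  have hu : ((σ - 1 - τ : ℕ) : ℤ) = (σ : ℤ) - 1 - τ := by omega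
  rw [hu]
  constructor
  · intro h
    have h2 : (a.1 + τ + 1) % (wd n : ℤ) = ((wd n : ℤ) - 1) % (wd n : ℤ) := by
      rw [h, Int.emod_eq_of_lt (by omega) (by omega)]
    have h4 : (wd n : ℤ) ∣ ((wd n : ℤ) - 1) - (a.1 + τ + 1) := Int.ModEq.dvd h2
    obtain ⟨q, hq⟩ := h4
    have h5 : a.1 + σ + 1 = ((σ : ℤ) - 1 - τ) + (wd n : ℤ) * (1 - q) := by linarith
    rw [h5, Int.add_mul_emod_self_left, Int.emod_eq_of_lt (by omega) (by omega)]
  · intro h
    have h2 : (a.1 + σ + 1) % (wd n : ℤ) = ((σ : ℤ) - 1 - τ) % (wd n : ℤ) := by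
      rw [h, Int.emod_eq_of_lt (by omega) (by omega)]
    have h4 : (wd n : ℤ) ∣ ((σ : ℤ) - 1 - τ) - (a.1 + σ + 1) := Int.ModEq.dvd h2
    obtain ⟨q, hq⟩ := h4
    have h5 : a.1 + τ + 1 = ((wd n : ℤ) - 1) + (wd n : ℤ) * (-1 - q) := by linarith
    rw [h5, Int.add_mul_emod_self_left, Int.emod_eq_of_lt (by omega) (by omega)]

theorem st_LIT : ST_LIT := by
  intro n P σ hσ
  have hw : ((wd n - 1 : ℕ) : ℤ) = (wd n : ℤ) - 1 := by omega
  have h0 : light n P σ ↔ cls n P σ (wd n - 1) ≤ Nat.sqrt n := by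
    unfold light cls
    rw [hw]
  unfold firstLight
  rw [h0]
  refine and_congr_right fun _ => ?_
  constructor
  · intro h u hu
    have h1 := h (σ - 1 - u) (by omega)
    unfold light at h1
    rw [lit_cls P hσ (by omega)] at h1
    have h2 : σ - 1 - (σ - 1 - u) = u := by omega
    rw [h2] at h1
    exact not_le.1 h1
  · intro h τ hτ hl
    unfold light at hl
    rw [lit_cls P hσ hτ] at hl
    exact absurd hl (not_le.2 (h _ (by omega)))

end Pool.Agent.Helper92.PO
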