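import Mathlib
import Pool.Agent.Helper92.PO.Stmts

namespace Pool.Agent.Helper92.PO

open Function Pool.Agent.Helper52.Poly

theorem prow_UB {γ δ : Type} [Enc γ] [Enc δ] {m : γ → ℕ} (hm : UB m) {f : δ → γ} (hf : PF f)
    (hsz : ∀ d, sz (f d) ≤ sz d) : UB (fun d => m (f d)) := by
  obtain ⟨h1, Q, hQ⟩ := hm
  exact ⟨h1.comp hf, Q, fun d => (hQ (f d)).trans (pmono Q (hsz d))⟩

theorem prow_inv (n K : ℕ) (l : List ℕ) (hl : ∀ k ∈ l, k < K) : ∀ X : List Row,
    (∀ ξ ∈ X, ξ.length ≤ Nat.sqrt n ∧ ∀ p ∈ ξ, p.1 < K ∧ p.2 ∈ labs n) →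
    ∀ ξ ∈ l.foldl (rowStep n) X, ξ.length ≤ Nat.sqrt n ∧ ∀ p ∈ ξ, p.1 < K ∧ p.2 ∈ labs n := by
  induction l with
  | nil => intro X hX; exact hX
  | cons k l ih =>
    intro X hX
    rw [List.foldl_cons]
    refine ih (fun j hj => hl j (List.mem_cons_of_mem _ hj)) _ ?_
    intro ξ hξ
    unfold rowStep at hξ
    rcases List.mem_append.1 hξ with h | h
    · exact hX ξ h
    · obtain ⟨ζ, hζ, h2⟩ := List.mem_flatMap.1 h
      obtain ⟨hζ1, hζ2⟩ := List.mem_filter.1 hζ
      obtain ⟨v, hv, rfl⟩ := List.mem_map.1 h2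
      have hlt : ζ.length < Nat.sqrt n := of_decide_eq_true hζ2
      refine ⟨by rw [List.length_cons]; omega, ?_⟩
      intro p hp
      rcases List.mem_cons.1 hp with h3 | h3
      · rw [h3]
        exact ⟨hl k List.mem_cons_self, List.mem_of_mem_tail hv⟩
      · exact (hX ζ hζ1).2 p h3

theorem prow_sz_row (B : ℕ) (ξ : Row) (h : ∀ p ∈ ξ, sz p ≤ B) : sz ξ ≤ 1 + ξ.length * (1 + B) := by
  induction ξ with
  | nil => simp [sz_nil]
  | cons p ξ ih =>
    have h1 := h p List.mem_cons_self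
    have h2 := ih (fun q hq => h q (List.mem_cons_of_mem _ hq))
    rw [sz_cons, List.length_cons, Nat.succ_mul]
    omega

theorem prow_sz_list {α : Type} [Enc α] (B : ℕ) (X : List α) (h : ∀ p ∈ X, sz p ≤ B) :
    sz X ≤ 1 + X.length * (1 + B) := by
  induction X with
  | nil => simp [sz_nil]
  | cons p X ih =>
    have h1 := h p List.mem_cons_self
    have h2 := ih (fun q hq => h q (List.mem_cons_of_mem _ hq))
    rw [sz_cons, List.length_cons, Nat.succ_mul]
    omega

theorem prow_range_prefix {K : ℕ} {l1 l2 : List ℕ} (h : List.range K = l1 ++ l2) :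
    l1 = List.range l1.length ∧ l1.length ≤ K := by
  have h1 : K = l1.length + l2.length := by
    have := congrArg List.length h
    rwa [List.length_range, List.length_append] at this
  have h2 : l1 = (List.range K).take l1.length := by rw [h, List.take_left']; rfl
  refine ⟨?_, by omega⟩
  rw [List.take_range, min_eq_left (by omega)] at h2
  exact h2

/-- the fold step -/
def prow_step (s : (Inp × List Row) × ℕ) : Inp × List Row :=
  (s.1.1, rowStep (nn s.1.1) s.1.2 s.2)

theorem prow_fold (c : Inp) (l : List ℕ) : ∀ X : List Row,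
    l.foldl (fun u x => prow_step (u, x)) (c, X) = (c, l.foldl (rowStep (nn c)) X) := by
  induction l with
  | nil => intro X; rfl
  | cons k l ih => intro X; exact ih _

theorem prow_step_pf (h1 : ST_PFLM) (h2 : ST_PLAB) (h4 : ST_PWD) (h5 : ST_PNN) :
    PF prow_step := by
  have hX : PF (fun s : (Inp × List Row) × ℕ => s.1.2) := PF.snd' PF.fst
  have hc : PF (fun s : (Inp × List Row) × ℕ => s.1.1) := PF.fst' PF.fst
  have hUB2 : UB (fun z : ((Inp × List Row) × ℕ) × Row => nn z.1.1.1) :=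
    prow_UB h5.1 (f := fun z : ((Inp × List Row) × ℕ) × Row => z.1.1.1)
      (PF.fst' (PF.fst' PF.fst)) (fun d => by
        have e1 := sz_pair d.1 d.2
        have e2 := sz_pair d.1.1 d.1.2
        have e3 := sz_pair d.1.1.1 d.1.1.2
        have e1' : sz d = 1 + sz d.1 + sz d.2 := e1
        have e2' : sz d.1 = 1 + sz d.1.1 + sz d.1.2 := e2
        have e3' : sz d.1.1 = 1 + sz d.1.1.1 + sz d.1.1.2 := e3
        omega)
  have hfil : PF (fun s : (Inp × List Row) × ℕ =>
      s.1.2.filter fun ξ => decide (ξ.length < Nat.sqrt (nn s.1.1))) :=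
    PF.filterEnv (l := fun s : (Inp × List Row) × ℕ => s.1.2)
      (b := fun z : ((Inp × List Row) × ℕ) × Row =>
        decide (z.2.length < Nat.sqrt (nn z.1.1.1))) hX
      (PF.lt (PF.length PF.snd) (h4 _ _ hUB2).2.1.1)
  have hmap : PF (fun z : ((Inp × List Row) × ℕ) × Row =>
      (labs (nn z.1.1.1)).tail.map fun v => (z.1.2, v) :: z.2) :=
    PF.map (l := fun z : ((Inp × List Row) × ℕ) × Row => (labs (nn z.1.1.1)).tail)
      (h := fun w : (((Inp × List Row) × ℕ) × Row) × Lab => ((w.1.1.2, w.2) :: w.1.2 : Row))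
      (PF.tail (h2 _ _ hUB2))
      (PF.cons (PF.pair (PF.snd' (PF.fst' PF.fst)) PF.snd) (PF.snd' PF.fst))
  have hflat := h1 _ _ _ (fun s : (Inp × List Row) × ℕ =>
      s.1.2.filter fun ξ => decide (ξ.length < Nat.sqrt (nn s.1.1)))
      (fun z : ((Inp × List Row) × ℕ) × Row =>
        (labs (nn z.1.1.1)).tail.map fun v => ((z.1.2, v) :: z.2 : Row)) hfil hmap
  exact PF.pair hc (PF.append hX hflat)

theorem st_PROW (h1 : ST_PFLM) (h2 : ST_PLAB) (h3 : ST_PRNG) (h4 : ST_PWD) (h5 : ST_PNN)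
    (h6 : ST_NUM) : ST_PROW := by
  have hl : PF (fun c : Inp => List.range (KK (nn c))) := h3 _ _ (h4 _ _ h5.1).2.2.2.2
  have hlab : PF (fun c : Inp => labs (nn c)) := h2 _ _ h5.1
  obtain ⟨Qr, hQr⟩ := hl.size_le
  obtain ⟨Ql, hQl⟩ := hlab.size_le
  obtain ⟨Qn, hQn⟩ := h5.1.2
  have hi : PF (fun c : Inp => (c, ([[]] : List Row))) := PF.pair PF.id (PF.const _)
  have key := PF.foldl hi hl (prow_step_pf h1 h2 h4 h5)
    (1 + Polynomial.X + (1 + Polynomial.X * (2 + Qn * (2 + Qr + Ql)))) (by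
      intro c l1 l2 hl12
      obtain ⟨hpre, hle⟩ := prow_range_prefix hl12
      rw [prow_fold, sz_pair]
      have hinv := prow_inv (nn c) (KK (nn c)) l1 (by
        intro k hk
        have : k ∈ List.range (KK (nn c)) := by rw [hl12]; exact List.mem_append_left _ hk
        exact List.mem_range.1 this) [[]] (by
        intro ξ hξ
        rw [List.mem_singleton.1 hξ]
        exact ⟨Nat.zero_le _, by simp⟩)
      have hlen : (l1.foldl (rowStep (nn c)) [[]]).length ≤ sz c := by
        have h7 := (h6 (nn c)).2.2 l1.length hle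
        rw [← hpre] at h7
        exact h7.trans (h5.2 c)
      have hel : ∀ ξ ∈ l1.foldl (rowStep (nn c)) [[]],
          sz ξ ≤ 1 + Qn.eval (sz c) * (1 + (1 + Qr.eval (sz c) + Ql.eval (sz c))) := by
        intro ξ hξ
        obtain ⟨e1, e2⟩ := hinv ξ hξ
        have e3 := prow_sz_row (1 + Qr.eval (sz c) + Ql.eval (sz c)) ξ (by
          intro p hp
          obtain ⟨e4, e5⟩ := e2 p hp
          have e6 : sz p = 1 + sz p.1 + sz p.2 := sz_pair p.1 p.2
          have e7 : sz p.1 ≤ sz (List.range (KK (nn c))) := sz_mem_le (List.mem_range.2 e4)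
          have e8 : sz p.2 ≤ sz (labs (nn c)) := sz_mem_le e5
          have e9 := hQr c
          have e10 := hQl c
          omega)
        have e11 : ξ.length ≤ Qn.eval (sz c) :=
          e1.trans ((Nat.sqrt_le_self _).trans (hQn c))
        have e12 := Nat.mul_le_mul_right (1 + (1 + Qr.eval (sz c) + Ql.eval (sz c))) e11
        omega
      have htot := prow_sz_list _ _ hel
      have e13 := Nat.mul_le_mul_right
        (1 + (1 + Qn.eval (sz c) * (1 + (1 + Qr.eval (sz c) + Ql.eval (sz c))))) hlen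
      have e14 : sz c * (1 + (1 + Qn.eval (sz c) * (1 + (1 + Qr.eval (sz c) + Ql.eval (sz c))))) =
          sz c * (2 + Qn.eval (sz c) * (2 + Qr.eval (sz c) + Ql.eval (sz c))) := by ring
      simp only [Polynomial.eval_add, Polynomial.eval_mul, Polynomial.eval_one, Polynomial.eval_X,
        Polynomial.eval_ofNat]
      omega)
  refine (key.snd').congr (fun c => ?_)
  rw [prow_fold]
  rfl

end Pool.Agent.Helper92.PO
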