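import Mathlib
import Pool.Agent.Helper92.PO.Stmts

namespace Pool.Agent.Helper92.PO

theorem ptl_Vc {a b : Lab} (ha : a.1 = 0) (hb : b.1 = 0) : Vc a b = true := by
  unfold Vc sm par
  simp [ha, hb]

theorem ptl_empty {n σ : ℕ} {P : Finset Cell} {c : Cell → Lab} (hBOX : ST_BOX) (hσ : σ < wd n)
    (hP : P ∈ Anch n) (hV : Val n P c) (x y : ℕ) (hm : mustEmpty n σ x y = true) :
    (c ((x : ℤ) - σ - 1, (y : ℤ) - n - 1)).1 = 0 := by
  by_contra hne
  have hmem := (hV.1 _).2 hne
  obtain ⟨h1, h2, h3, h4⟩ := hBOX n P hP _ hmem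
  have h5 := hP.2.2.2 _ hmem
  simp only [] at h1 h2 h3 h4 h5
  have hn : 1 ≤ n := by
    have h6 := hP.1
    have h7 : 0 < P.card := Finset.card_pos.2 ⟨_, hmem⟩
    omega
  unfold mustEmpty at hm
  rw [Bool.or_eq_true, Bool.or_eq_true, Bool.or_eq_true, Bool.or_eq_true, Bool.and_eq_true,
    decide_eq_true_eq, decide_eq_true_eq, decide_eq_true_eq, decide_eq_true_eq, decide_eq_true_eq,
    decide_eq_true_eq] at hm
  rcases hm with h | h | h | h | h
  · omega
  · omega
  · omega
  · omega
  · have h8 : (n + 2) * wd n = n * wd n + 2 * wd n := by ring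
    have h9 : n ≤ n * wd n := Nat.le_mul_of_pos_right _ (by unfold wd; omega)
    unfold JJ at h
    have h10 : (x : ℤ) + 1 = (n * wd n : ℕ) + 2 * (wd n : ℤ) := by
      have h11 : x + 1 = n * wd n + 2 * wd n := by rw [h, h8]
      exact_mod_cast h11
    have h12 : (n : ℤ) ≤ (n * wd n : ℕ) := by exact_mod_cast h9
    have h13 : (σ : ℤ) + 1 ≤ wd n := by exact_mod_cast hσ
    omega

theorem st_PTL (h1 : ST_BOX) : ST_PTL := by
  intro n σ P c hσ hP hV
  have hL : 0 < LL n := by unfold LL; omega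
  have hw : 0 < wd n := by unfold wd; omega
  refine ⟨?_, ?_, ?_, ?_⟩
  · intro k hk u hu
    refine ⟨?_, fun hm => ptl_empty h1 hσ hP hV _ _ hm⟩
    unfold res
    rw [hV.2.2.1, Prod.mk.injEq]
    constructor
    · rintro ⟨h2, h3⟩
      constructor
      · have h4 : (((k / LL n) * wd n + u : ℕ) : ℤ) = ((σ + 1 : ℕ) : ℤ) := by
          push_cast at h2 ⊢
          linarith
        exact_mod_cast h4
      · omega
    · rintro ⟨h2, h3⟩
      rw [h2, h3]
      push_cast
      constructor <;> ring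
  · intro k hk u hu
    have hmod : k % LL n < LL n := Nat.mod_lt _ hL
    have hk' := Nat.div_add_mod k (LL n)
    by_cases hc : k % LL n + 1 < LL n
    · have e1 : (k + 1) / LL n = k / LL n := by
        rw [Nat.div_eq_of_lt_le]
        · rw [mul_comm]; omega
        · rw [Nat.succ_mul, mul_comm]; omega
      have e2 : (k + 1) % LL n = k % LL n + 1 := by
        have h3 := Nat.div_add_mod (k + 1) (LL n)
        rw [e1] at h3
        omega
      have h2 := hV.2.2.2.2 ((((k / LL n) * wd n + u : ℕ) : ℤ) - σ - 1, ((k % LL n : ℕ) : ℤ) - n - 1)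
      unfold res
      rw [e1, e2]
      have e3 : ((k % LL n + 1 : ℕ) : ℤ) - n - 1 = ((k % LL n : ℕ) : ℤ) - n - 1 + 1 := by
        push_cast
        ring
      rw [e3]
      exact h2
    · have hc' : k % LL n + 1 = LL n := by omega
      have e2 : (k + 1) % LL n = 0 := by
        have h4 : k + 1 = LL n * (k / LL n + 1) := by
          rw [mul_add, mul_one]
          omega
        rw [h4, Nat.mul_mod_right]
      have hLL : LL n = 2 * n + 2 := rfl
      apply ptl_Vc
      · apply ptl_empty h1 hσ hP hV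
        unfold mustEmpty
        have h5 : k % LL n = 2 * n + 1 := by omega
        simp [h5]
      · apply ptl_empty h1 hσ hP hV
        unfold mustEmpty
        simp [e2]
  · intro k hk u hu
    have h2 := hV.2.2.2.1 ((((k / LL n) * wd n + u : ℕ) : ℤ) - σ - 1, ((k % LL n : ℕ) : ℤ) - n - 1)
    unfold res
    have e3 : (((k / LL n) * wd n + (u + 1) : ℕ) : ℤ) - σ - 1 =
        (((k / LL n) * wd n + u : ℕ) : ℤ) - σ - 1 + 1 := by
      push_cast
      ring
    rw [e3]
    exact h2
  · intro k hk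
    have h2 := hV.2.2.2.1
      ((((k / LL n) * wd n + (wd n - 1) : ℕ) : ℤ) - σ - 1, ((k % LL n : ℕ) : ℤ) - n - 1)
    unfold res
    have e1 : (k + LL n) / LL n = k / LL n + 1 := Nat.add_div_right k hL
    have e2 : (k + LL n) % LL n = k % LL n := Nat.add_mod_right k (LL n)
    have e4 : (k / LL n + 1) * wd n + 0 = (k / LL n) * wd n + (wd n - 1) + 1 := by
      rw [add_mul, one_mul]
      omega
    have e3 : (((k / LL n + 1) * wd n + 0 : ℕ) : ℤ) - σ - 1 =
        (((k / LL n) * wd n + (wd n - 1) : ℕ) : ℤ) - σ - 1 + 1 := by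
      rw [e4]
      push_cast
      ring
    rw [e1, e2, e3]
    exact h2

end Pool.Agent.Helper92.PO
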