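import Mathlib
import Pool.Agent.Helper92.PO.Stmts

namespace Pool.Agent.Helper92.PO

theorem sig_finite (h1 : ST_BOX) (n : ℕ) : (Anch n).Finite := by
  have hsub : Anch n ⊆ (((Finset.Icc (-(n : ℤ)) n) ×ˢ (Finset.Icc (-(n : ℤ)) n)).powerset :
      Set (Finset Cell)) := by
    intro P hP
    rw [Finset.mem_coe, Finset.mem_powerset]
    intro a ha
    obtain ⟨h2, h3, h4, h5⟩ := h1 n P hP a ha
    rw [Finset.mem_product, Finset.mem_Icc, Finset.mem_Icc]
    refine ⟨⟨by omega, by omega⟩, by omega, by omega⟩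
  exact (Finset.finite_toSet _).subset hsub

theorem sig_light_exists {n : ℕ} {P : Finset Cell} (hP : P.card = n) :
    ∃ σ < wd n, light n P σ := by
  classical
  by_contra hcon
  push Not at hcon
  have hw : (0 : ℤ) < wd n := by
    have : 0 < wd n := by unfold wd; omega
    exact_mod_cast this
  have hmaps : ∀ a ∈ P, ((wd n : ℤ) - 2 - a.1) % (wd n : ℤ) ∈ Finset.Ico (0 : ℤ) (wd n) := by
    intro a _
    rw [Finset.mem_Ico]
    exact ⟨Int.emod_nonneg _ hw.ne', Int.emod_lt_of_pos _ hw⟩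
  have hcard := Finset.card_eq_sum_card_fiberwise (s := P) (t := Finset.Ico (0 : ℤ) (wd n))
    (f := fun a : Cell => ((wd n : ℤ) - 2 - a.1) % (wd n : ℤ)) hmaps
  have hge : ∀ s ∈ Finset.Ico (0 : ℤ) (wd n), wd n ≤
      (P.filter fun a : Cell => ((wd n : ℤ) - 2 - a.1) % (wd n : ℤ) = s).card := by
    intro s hs
    rw [Finset.mem_Ico] at hs
    obtain ⟨σ, rfl⟩ := Int.eq_ofNat_of_zero_le hs.1
    have hσ : σ < wd n := by exact_mod_cast hs.2
    have hl := hcon σ hσ
    unfold light at hl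
    have heq : (P.filter fun a : Cell => ((wd n : ℤ) - 2 - a.1) % (wd n : ℤ) = (σ : ℤ)) =
        P.filter fun a : Cell => (a.1 + σ + 1) % (wd n : ℤ) = (wd n : ℤ) - 1 := by
      refine Finset.filter_congr fun a _ => ?_
      constructor
      · intro h
        have h2 : ((wd n : ℤ) - 2 - a.1) % (wd n : ℤ) = (σ : ℤ) % (wd n : ℤ) := by
          rw [h, Int.emod_eq_of_lt (by omega) hs.2]
        have h4 : (wd n : ℤ) ∣ (σ : ℤ) - ((wd n : ℤ) - 2 - a.1) := Int.ModEq.dvd h2
        obtain ⟨q, hq⟩ := h4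
        have h5 : a.1 + σ + 1 = ((wd n : ℤ) - 1) + (wd n : ℤ) * q := by linarith
        rw [h5, Int.add_mul_emod_self_left, Int.emod_eq_of_lt (by omega) (by omega)]
      · intro h
        have h2 : (a.1 + σ + 1) % (wd n : ℤ) = ((wd n : ℤ) - 1) % (wd n : ℤ) := by
          rw [h, Int.emod_eq_of_lt (by omega) (by omega)]
        have h4 : (wd n : ℤ) ∣ ((wd n : ℤ) - 1) - (a.1 + σ + 1) := Int.ModEq.dvd h2
        obtain ⟨q, hq⟩ := h4
        have h5 : (wd n : ℤ) - 2 - a.1 = (σ : ℤ) + (wd n : ℤ) * q := by linarith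
        rw [h5, Int.add_mul_emod_self_left, Int.emod_eq_of_lt (by omega) hs.2]
    rw [heq]
    unfold wd at hl ⊢
    omega
  have hsum := Finset.card_nsmul_le_sum _ _ _ hge
  rw [← hcard, hP, Int.card_Ico, smul_eq_mul] at hsum
  have h7 : ((wd n : ℤ) - 0).toNat = wd n := by
    rw [sub_zero]
    exact Int.toNat_natCast _
  rw [h7] at hsum
  have h8 : n < wd n * wd n := by
    unfold wd
    exact Nat.lt_succ_sqrt n
  omega

theorem st_SIG (h1 : ST_BOX) : ST_SIG := by
  classical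
  intro n
  have hfin := sig_finite h1 n
  have hfirst : ∀ P ∈ Anch n, ∃ σ < wd n, firstLight n P σ := by
    intro P hP
    have hex := sig_light_exists (n := n) (P := P) hP.1
    have hex' : ∃ σ, light n P σ := by
      obtain ⟨σ, _, h⟩ := hex
      exact ⟨σ, h⟩
    refine ⟨Nat.find hex', ?_, Nat.find_spec hex', fun τ hτ => Nat.find_min hex' hτ⟩
    obtain ⟨σ, hσ, h⟩ := hex
    exact lt_of_le_of_lt (Nat.find_min' hex' h) hσ
  have huniq : ∀ P σ τ, firstLight n P σ → firstLight n P τ → σ = τ := by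
    intro P σ τ hs ht
    rcases lt_trichotomy σ τ with h | h | h
    · exact absurd hs.1 (ht.2 σ h)
    · exact h
    · exact absurd ht.1 (hs.2 τ h)
  have hS : ∀ σ, {P | P ∈ Anch n ∧ firstLight n P σ}.Finite := fun σ =>
    hfin.subset fun P hP => hP.1
  have hunion : (Anch n).ncard = ((Finset.range (wd n)).biUnion fun σ => (hS σ).toFinset).card := by
    rw [← Set.ncard_coe_finset]
    congr 1
    ext P
    rw [Finset.mem_coe, Finset.mem_biUnion]
    constructor
    · intro hP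
      obtain ⟨σ, hσ, hf⟩ := hfirst P hP
      exact ⟨σ, Finset.mem_range.2 hσ, (Set.Finite.mem_toFinset _).2 ⟨hP, hf⟩⟩
    · rintro ⟨σ, _, hP⟩
      exact ((Set.Finite.mem_toFinset _).1 hP).1
  rw [hunion, Finset.card_biUnion]
  · refine Finset.sum_congr rfl fun σ _ => ?_
    rw [← Set.ncard_coe_finset, Set.Finite.coe_toFinset]
  · intro σ _ τ _ hne
    rw [Function.onFun, Finset.disjoint_left]
    intro P hP hP'
    exact hne (huniq P σ τ ((Set.Finite.mem_toFinset _).1 hP).2
      ((Set.Finite.mem_toFinset _).1 hP').2)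

end Pool.Agent.Helper92.PO
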