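import Mathlib
import Pool.Agent.Helper92.PO.Stmts

namespace Pool.Agent.Helper92.PO

theorem st_VTP (h1 : ST_VTL) (h2 : ST_CCN) (h3 : ST_CSM) (h4 : ST_LIT) (h5 : ST_LBC) :
    ST_VTP := by
  intro n σ f hσ hf hS
  obtain ⟨P, hV, hanch⟩ := h1 n σ f hσ hf hS.1
  have hcls : ∀ u < wd n, cnt n f u = cls n P σ u := h2 n σ f P hV.1
  have hw : 0 < wd n := by unfold wd; omega
  have hcard : P.card = n := by
    refine (h3 n P σ).symm.trans (Eq.trans ?_ hS.2.1)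
    exact Finset.sum_congr rfl fun u hu => (hcls u (Finset.mem_range.1 hu)).symm
  have h0 : ((0, 0) : Cell) ∈ P := by
    rw [hV.1]
    have := (hV.2.2.1 (0, 0)).2 rfl
    rw [this]
    exact one_ne_zero
  refine ⟨P, ⟨hcard, h5 n P _ hV, h0, hanch⟩, ?_, hV⟩
  rw [h4 n P σ hσ]
  refine ⟨?_, fun u hu => ?_⟩
  · rw [← hcls _ (by omega)]
    exact hS.2.2.1
  · rw [← hcls u (by omega)]
    exact hS.2.2.2 u hu

end Pool.Agent.Helper92.PO
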